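import Mathlib

namespace Pool.Agent.Results.MP_0b9f2e_nt.Pos

open Finset Filter

def IsLog (k : ℕ) (f : ℕ → ZMod k) : Prop :=
  ∀ a ∈ Icc 1 k, ∀ b ∈ Icc 1 k, a * b ≤ k → f (a * b) = f a + f b

noncomputable def M (k : ℕ) : ℕ := sSup {m | ∃ f, IsLog k f ∧ m = ((Icc 1 k).image f).card}

theorem sqf (k : ℕ) (hk : 2 ≤ k) : k / 4 ≤ ((Icc 1 k).filter Squarefree).card := by
  have h1 : (Icc 1 k).filter (¬ Squarefree ·) ⊆
      (Ioc 1 k).biUnion fun d => (Ioc 0 k).filter (d ^ 2 ∣ ·) := by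
    intro n hn
    simp only [mem_filter, mem_Icc, Nat.squarefree_iff_prime_squarefree, not_forall, not_not] at hn
    obtain ⟨⟨a, b⟩, p, hp, hd⟩ := hn
    simp only [mem_biUnion, mem_Ioc, mem_filter]
    exact ⟨p, ⟨hp.one_lt, (Nat.le_of_dvd a (Dvd.intro _ rfl |>.trans hd)).trans b⟩, ⟨a, b⟩, sq p ▸ hd⟩
  have h2 := (card_le_card h1).trans card_biUnion_le
  simp only [Nat.Ioc_filter_dvd_card_eq_div] at h2
  have h3 : ((∑ d ∈ Ioc 1 k, k / d ^ 2 : ℕ) : ℝ) ≤ k * (3 / 4) := by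
    have := sum_Ioc_inv_sq_le_sub (α := ℝ) (k := 2) (by norm_num) hk
    have e : ∑ d ∈ Ioc 1 k, ((d : ℝ) ^ 2)⁻¹ = 1 / 4 + ∑ d ∈ Ioc 2 k, ((d : ℝ) ^ 2)⁻¹ := by
      rw [← sum_Ioc_consecutive _ (by norm_num : 1 ≤ 2) hk]
      norm_num
    have k0 : (0 : ℝ) ≤ (k : ℝ)⁻¹ := by positivity
    calc _ ≤ ∑ d ∈ Ioc 1 k, (k : ℝ) * ((d : ℝ) ^ 2)⁻¹ := by
          push_cast
          exact sum_le_sum fun d _ => Nat.cast_div_le.trans (by push_cast; rfl)
      _ ≤ _ := by
          rw [← mul_sum, e]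
          gcongr
          push_cast at this
          linarith
  have h4 := card_filter_add_card_filter_not (s := Icc 1 k) Squarefree
  have h5 : 4 * ∑ d ∈ Ioc 1 k, k / d ^ 2 ≤ 3 * k := by
    have : (4 : ℝ) * (∑ d ∈ Ioc 1 k, k / d ^ 2 : ℕ) ≤ 3 * k := by linarith
    exact_mod_cast this
  rw [Nat.card_Icc] at h4
  omega

def F (k n : ℕ) : (Fin (k + 1) → ZMod k) →+ ZMod k where
  toFun x := ∑ p : Fin (k + 1), n.factorization p • x p
  map_zero' := by simp
  map_add' x y := by simp [sum_add_distrib]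

theorem fib (k : ℕ) [NeZero k] (n m : ℕ) (hn : n ∈ (Icc 1 k).filter Squarefree)
    (hm : m ∈ (Icc 1 k).filter Squarefree) (h : n ≠ m) :
    k * #{x | F k n x = F k m x} = Fintype.card (Fin (k + 1) → ZMod k) := by
  simp only [mem_filter, mem_Icc] at hn hm
  obtain ⟨p, hp⟩ := not_forall.1 (mt (Nat.eq_of_factorization_eq (by omega) (by omega)) h)
  have h1 := hn.2.natFactorization_le_one p
  have h2 := hm.2.natFactorization_le_one p
  have pk : p < k + 1 := by
    by_contra c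
    rw [Nat.factorization_eq_zero_of_lt (by omega), Nat.factorization_eq_zero_of_lt (by omega)] at hp
    exact hp rfl
  have s (y : ZMod k) : y ∈ Set.range (F k n - F k m) := by
    have e (n : ℕ) (y : ZMod k) : F k n (Pi.single ⟨p, pk⟩ y) = n.factorization p • y := by
      simp [F, Pi.single_apply]
    rcases (by omega : n.factorization p = 1 ∧ m.factorization p = 0 ∨
      n.factorization p = 0 ∧ m.factorization p = 1) with ⟨a, b⟩ | ⟨a, b⟩
    · exact ⟨Pi.single ⟨p, pk⟩ y, by simp [e, a, b]⟩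
    · exact ⟨Pi.single ⟨p, pk⟩ (-y), by simp [e, a, b]⟩
  rw [← card_univ, card_eq_sum_card_fiberwise (f := F k n - F k m) (s := univ) (t := univ) (by simp),
    sum_congr rfl fun y _ => AddMonoidHom.card_fiber_eq_of_mem_range _ (s y) (s 0)]
  simp [sub_eq_zero]

theorem main (k : ℕ) (hk : 9 ≤ k) : k ≤ 8 * M k := by
  have : NeZero k := ⟨by omega⟩
  obtain ⟨A, hA, cA⟩ := exists_subset_card_eq (sqf k (by omega))
  obtain ⟨x, -, hx⟩ := exists_le_of_sum_le (s := univ) univ_nonempty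
    (f := fun x => k * #{q ∈ A.offDiag | F k q.1 x = F k q.2 x}) (g := fun _ => #A * #A) (by
      simp only [card_filter, mul_sum]
      rw [sum_comm]
      simp only [← mul_sum, ← card_filter]
      rw [mul_sum, sum_congr rfl fun q hq => fib k q.1 q.2 (hA (mem_offDiag.1 hq).1)
        (hA (mem_offDiag.1 hq).2.1) (mem_offDiag.1 hq).2.2]
      simp only [sum_const, smul_eq_mul, offDiag_card, card_univ, mul_comm (Fintype.card _)]
      exact (Nat.mul_le_mul_right _ (Nat.sub_le _ _)).trans_eq (mul_assoc _ _ _))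
  have h1 : #A ≤ #((Icc 1 k).image (F k · x)) + #{q ∈ A.offDiag | F k q.1 x = F k q.2 x} := by
    rw [← card_filter_add_card_filter_not (s := A) fun n => ∀ m ∈ A, F k n x = F k m x → n = m]
    gcongr
    · refine card_le_card_of_injOn (F k · x) (fun n hn => ?_) fun n hn m hm e => ?_
      · exact mem_coe.2 (mem_image_of_mem _ (mem_filter.1 (hA (mem_filter.1 hn).1)).1)
      · exact (mem_filter.1 hn).2 m (mem_filter.1 hm).1 e
    · refine le_trans (card_le_card fun n hn => ?_) (card_image_le (f := Prod.fst))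
      simp only [mem_filter, not_forall] at hn
      obtain ⟨a, m, b, c, d⟩ := hn
      exact mem_image.2 ⟨(n, m), mem_filter.2 ⟨mem_offDiag.2 ⟨a, b, d⟩, c⟩, rfl⟩
  have h2 : #((Icc 1 k).image (F k · x)) ≤ M k := by
    refine le_csSup ⟨k, ?_⟩ ⟨_, fun a ha b hb _ => ?_, rfl⟩
    · rintro _ ⟨f, -, rfl⟩
      simpa using card_image_le (s := Icc 1 k) (f := f)
    · rw [mem_Icc] at ha hb
      simp [F, Nat.factorization_mul (by omega : a ≠ 0) (by omega : b ≠ 0), add_mul,
        sum_add_distrib]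
  have h3 : 4 * #{q ∈ A.offDiag | F k q.1 x = F k q.2 x} ≤ #A := by
    apply Nat.le_of_mul_le_mul_left _ (by omega : 0 < k)
    have : 4 * #A ≤ k := by omega
    nlinarith
  omega

theorem result : (1 / 8 : ℝ) ≤ liminf (fun k : ℕ => (M k : ℝ) / k) atTop := by
  refine le_liminf_of_le (isCoboundedUnder_ge_of_le _ (x := 1) fun k => ?_) ?_
  · refine div_le_one_of_le₀ (Nat.cast_le.2 (csSup_le' ?_)) (by positivity)
    rintro _ ⟨f, -, rfl⟩
    simpa using card_image_le (s := Icc 1 k) (f := f)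
  · filter_upwards [eventually_ge_atTop 9] with k hk
    rw [div_le_div_iff₀ (by norm_num) (by positivity)]
    exact_mod_cast (by have := main k hk; omega : 1 * k ≤ M k * 8)

end Pool.Agent.Results.MP_0b9f2e_nt.Pos
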